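import Pool.Agent.P8H49.WT.App
import Pool.Agent.Y854.GM.Lim
import Pool.Agent.Y854.GM.Rate

/-!
# Thin families of positive integers

A law `T` says of a property `G` of the positive integers that in a certain sense almost all members of a thin family of sets of
integers have the property. `Thin f T` lists laws which are true for every property `G` with at most `X ^ (f + e)` exceptions up to
`X`, for every `e > 0` (`thin_of_few`).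
-/

set_option autoImplicit false

namespace Pool.Agent.P8H25.TF

open Filter Finset
open scoped Topology NNReal ENNReal
open Pool.Agent.P8H49.WT (Few near_mult near_orb near_approx)
open Pool.Agent.N733.TG (LM Expanding)
open Pool.Agent.N671.DA (Solves)

/-- The laws `T` for a property `G` of the positive integers.

* `values`: for all `m ≤ X` but `X / (log X) ^ A`, all `n ≥ 1` with `|n - F (g m)| ≤ (g m) ^ μ` have the property;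
* `orbits`: for a function `K` which tends to infinity, for almost all `m` all `n ≥ 1` with `|n - F (g v)| ≤ (g v) ^ μ` for some
  `v = φ_k m`, `k ≤ K m`, have the property (`φ_k` is the iterate of the function of Euler);
* `approximations`: for all `α ∈ ℝ ^ M` outside a set of Hausdorff dimension at most `(M + D f + μ) / (1 + τ)` and all `c`, for all
  large `q` such that every `q α_j - β_j` has distance at most `c q ^ (-τ)` from an integer, all `n ≥ 1` with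
  `|n - F q| ≤ q ^ μ` have the property;
* `powers`: for all `α > 0` outside a set of Hausdorff dimension at most `f + 1 / c` all but finitely many of the integers
  `⌊α n ^ c⌋` have the property;
* `most`, for `f < 1` only: for all `α > 0` outside a set of Hausdorff dimension less than one, for some `δ > 0`, for all but
  `N ^ (1 - δ)` of the `n ≤ N` the integer `⌊α n ^ c⌋` has the property or is zero, `N` large. -/
inductive Thin (f : ℝ) : ((ℕ → Prop) → Prop) → Prop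
  | values (g : ℕ → ℕ) (F : ℕ → ℝ) (D μ : ℝ) (A : ℕ) (hg : LM g) (hF : Expanding F D) (hμ : 0 ≤ μ)
      (h : D * f + μ < 1) : Thin f (fun G => ∃ X₀ : ℕ, ∀ X : ℕ, X₀ ≤ X →
        ({m : ℕ | 1 ≤ m ∧ m ≤ X ∧ ∃ n : ℕ, 1 ≤ n ∧ |(n : ℝ) - F (g m)| ≤ (g m : ℝ) ^ μ ∧ ¬ G n}.ncard : ℝ) ≤
          X / Real.log X ^ A)
  | orbits (g : ℕ → ℕ) (F : ℕ → ℝ) (D μ : ℝ) (hg : LM g) (hF : Expanding F D) (hμ : 0 ≤ μ)
      (h : D * f + μ < 1) : Thin f (fun G => ∃ K : ℕ → ℕ, Tendsto K atTop atTop ∧ ∀ δ : ℝ, 0 < δ →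
        ∃ X₀ : ℕ, ∀ X : ℕ, X₀ ≤ X → ({m : ℕ | 1 ≤ m ∧ m ≤ X ∧ ∃ k ≤ K m, ∃ n : ℕ, 1 ≤ n ∧
          |(n : ℝ) - F (g (Nat.totient^[k] m))| ≤ (g (Nat.totient^[k] m) : ℝ) ^ μ ∧ ¬ G n}.ncard : ℝ) ≤ δ * X)
  | approximations (F : ℕ → ℝ) (D μ : ℝ) (hF : Expanding F D) (hμ : 0 ≤ μ) (hμ1 : μ ≤ 1) (M : ℕ)
      (β : Fin M → ℝ) (τ : ℝ) (hτ : 0 < τ) :
      Thin f (fun G => ∃ E : Set (Fin M → ℝ), dimH E ≤ ENNReal.ofReal ((M + (D * f + μ)) / (1 + τ)) ∧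
        ∀ α, α ∉ E → ∀ c : ℝ, ∃ Q : ℕ, ∀ q : ℕ, Q ≤ q → Solves α β q (c * (q : ℝ) ^ (-τ)) →
          ∀ n : ℕ, 1 ≤ n → |(n : ℝ) - F q| ≤ (q : ℝ) ^ μ → G n)
  | powers (c : ℝ) (hc : 1 < c) : Thin f (fun G => ∃ E : Set ℝ, dimH E ≤ ENNReal.ofReal (f + 1 / c) ∧
        ∀ α : ℝ, 0 < α → α ∉ E → ∃ n₀ : ℕ, ∀ n : ℕ, n₀ ≤ n → G ⌊α * (n : ℝ) ^ c⌋₊)
  | most (c : ℝ) (hc : 1 < c) (hf : f < 1) : Thin f (fun G => ∃ E : Set ℝ, dimH E < 1 ∧
        ∀ α : ℝ, 0 < α → α ∉ E → ∃ δ : ℝ, 0 < δ ∧ δ < 1 ∧ ∃ N₀ : ℕ, ∀ N : ℕ, N₀ ≤ N →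
          ({n : ℕ | 1 ≤ n ∧ n ≤ N ∧ 1 ≤ ⌊α * (n : ℝ) ^ c⌋₊ ∧ ¬ G ⌊α * (n : ℝ) ^ c⌋₊}.ncard : ℝ) ≤ (N : ℝ) ^ (1 - δ))

/-- the counting function of the exceptions -/
lemma count_few {f : ℝ} {G : ℕ → Prop} (hG : Few G f) {ε : ℝ} (hε : 0 < ε) : ∃ C : ℝ, 0 ≤ C ∧ ∀ (X : ℕ)
    (ip : DecidablePred (fun t => t ∈ {n : ℕ | 1 ≤ n ∧ ¬ G n})), ((@Finset.filter ℕ _ ip (Ioc 0 X)).card : ℝ) ≤
      C * (X : ℝ) ^ (f + ε) := by
  obtain ⟨C, hC⟩ := hG ε hε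
  refine ⟨|C|, abs_nonneg _, fun X ip => ?_⟩
  rcases Nat.eq_zero_or_pos X with rfl | hX
  · simp only [Ioc_self, filter_empty, card_empty, Nat.cast_zero]
    positivity
  · have h1 := (hC X hX).trans (mul_le_mul_of_nonneg_right (le_abs_self C) (by positivity))
    refine le_trans (le_of_eq ?_) h1
    rw [← Set.ncard_coe_finset]
    congr 2
    ext n
    simp only [coe_filter, mem_Ioc, Set.mem_ofPred_eq]
    constructor
    · rintro ⟨⟨g1, g2⟩, g3, g4⟩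
      exact ⟨g3, g2, g4⟩
    · rintro ⟨g1, g2, g3⟩
      exact ⟨⟨by omega, g2⟩, g1, g3⟩

/-- the law `most` -/
theorem most_of_few {f : ℝ} (hf : f < 1) {G : ℕ → Prop} (hG : Few G f) (c : ℝ) (hc : 1 < c) :
    ∃ E : Set ℝ, dimH E < 1 ∧
      ∀ α : ℝ, 0 < α → α ∉ E → ∃ δ : ℝ, 0 < δ ∧ δ < 1 ∧ ∃ N₀ : ℕ, ∀ N : ℕ, N₀ ≤ N →
        ({n : ℕ | 1 ≤ n ∧ n ≤ N ∧ 1 ≤ ⌊α * (n : ℝ) ^ c⌋₊ ∧ ¬ G ⌊α * (n : ℝ) ^ c⌋₊}.ncard : ℝ) ≤ (N : ℝ) ^ (1 - δ) := by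
  classical
  obtain ⟨E, hE, h⟩ := Pool.Agent.Y854.GM.sets_pow c hc (fun _ : Unit => {n : ℕ | 1 ≤ n ∧ ¬ G n})
  have hη : 0 < (1 - f) / 2 := by linarith
  obtain ⟨C, hC, hC'⟩ := count_few hG hη
  refine ⟨E, hE, fun α hα hαE => ?_⟩
  obtain ⟨δ, hδ, hδ1, N₀, hN⟩ := h α hα hαE () ((1 - f) / 2) C hη ⟨0, fun X _ => by
    refine (hC' X _).trans (le_of_eq ?_)
    rw [show f + (1 - f) / 2 = 1 - (1 - f) / 2 by ring]⟩
  refine ⟨δ, hδ, hδ1, N₀, fun N hNN => le_trans (le_of_eq ?_) (hN N hNN)⟩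
  rw [← Set.ncard_coe_finset]
  congr 2
  ext n
  simp only [coe_filter, mem_Icc, Set.mem_ofPred_eq]
  constructor
  · rintro ⟨g1, g2, g3, g4⟩
    exact ⟨⟨g1, g2⟩, g3, g4⟩
  · rintro ⟨⟨g1, g2⟩, g3, g4⟩
    exact ⟨g1, g2, g3, g4⟩

/-- the law `powers` -/
theorem powers_of_few {f : ℝ} (hf : 0 ≤ f) {G : ℕ → Prop} (hG : Few G f) (c : ℝ) (hc : 1 < c) :
    ∃ E : Set ℝ, dimH E ≤ ENNReal.ofReal (f + 1 / c) ∧
      ∀ α : ℝ, 0 < α → α ∉ E → ∃ n₀ : ℕ, ∀ n : ℕ, n₀ ≤ n → G ⌊α * (n : ℝ) ^ c⌋₊ := by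
  classical
  have hc0 : 0 < c := by linarith
  refine ⟨{α : ℝ | 0 < α ∧ ¬ ∃ n₀ : ℕ, ∀ n : ℕ, n₀ ≤ n → G ⌊α * (n : ℝ) ^ c⌋₊}, ?_, fun α hα hαE => ?_⟩
  · apply ENNReal.le_of_forall_pos_le_add
    intro ε hε _
    obtain ⟨C, hC, hC'⟩ := count_few hG (ε := (ε : ℝ)) (by exact_mod_cast hε)
    obtain ⟨E, hE, h⟩ := Pool.Agent.Y854.GM.finite_in c (f + ε) hc (add_nonneg hf (NNReal.coe_nonneg ε))
      {n : ℕ | 1 ≤ n ∧ ¬ G n} C hC (fun X => hC' X _)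
    have h3 : {α : ℝ | 0 < α ∧ ¬ ∃ n₀ : ℕ, ∀ n : ℕ, n₀ ≤ n → G ⌊α * (n : ℝ) ^ c⌋₊} ⊆ E := by
      rintro α ⟨h4, h5⟩
      by_contra h6
      obtain ⟨n₀, h7⟩ := h α h4 h6
      refine h5 ⟨n₀, fun n hn => ?_⟩
      by_contra h8
      exact (h7 n hn).2 ⟨(h7 n hn).1, h8⟩
    refine (dimH_mono h3).trans (hE.trans ?_)
    rw [show f + ε + 1 / c = (f + 1 / c) + ε by ring, ENNReal.ofReal_add (by positivity) (NNReal.coe_nonneg ε)]
    rw [ENNReal.ofReal_coe_nnreal]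
  · by_contra h
    exact hαE ⟨hα, h⟩

/-- **Few exceptions are avoided by all thin families.** -/
theorem thin_of_few {f : ℝ} (hf : 0 ≤ f) {G : ℕ → Prop} (hG : Few G f) {T : (ℕ → Prop) → Prop} (hT : Thin f T) :
    T G := by
  cases hT with
  | values g F D μ A hg hF hμ h => exact near_mult hf hG hg hF hμ h A
  | orbits g F D μ hg hF hμ h => exact near_orb hf hG hg hF hμ h
  | approximations F D μ hF hμ hμ1 M β τ hτ =>
    exact near_approx hf hG (⟨hF.one_le, hF.step, hF.growth⟩ : Pool.Agent.N671.DA.Expanding F D) hμ hμ1 β hτ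
  | powers c hc => exact powers_of_few hf hG c hc
  | most c hc h => exact most_of_few h hG c hc

end Pool.Agent.P8H25.TF
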